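import Mathlib
import Pool.Agent.H759R2.Kad.Props7

open scoped ComplexOrder InnerProductSpace ComplexConjugate
open Finset

noncomputable section

namespace H759R2.Kad

universe u v

theorem prove7_gns : R_gns.{v} := by
  intro D _ ψ hψ
  let _ : PartialOrder D := CStarAlgebra.spectralOrder D
  have _ : StarOrderedRing D := CStarAlgebra.spectralOrderedRing D
  have hpos : ∀ x : D, 0 ≤ x → 0 ≤ ψ x := by
    intro x hx
    obtain ⟨a, rfl⟩ := CStarAlgebra.nonneg_iff_eq_star_mul_self.mp hx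
    exact hψ a
  let f : D →ₚ[ℂ] ℂ := PositiveLinearMap.mk₀ ψ hpos
  have hf : ∀ a, f a = ψ a := fun a => rfl
  have hΩ : ∀ a : D, f.gnsStarAlgHom a ((f.toPreGNS 1 : f.PreGNS) : f.GNS) =
      ((f.toPreGNS a : f.PreGNS) : f.GNS) := by
    intro a
    change f.gnsNonUnitalStarAlgHom a _ = _
    rw [f.gnsNonUnitalStarAlgHom_apply_coe, f.leftMulMapPreGNS_apply]
    simp
  refine ⟨f.GNS, inferInstance, inferInstance, inferInstance, f.gnsStarAlgHom,
    ((f.toPreGNS 1 : f.PreGNS) : f.GNS), fun a => ?_, fun x ε hε => ?_⟩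
  · rw [hΩ, UniformSpace.Completion.inner_coe, f.preGNS_inner_def, hf]
    simp
  · obtain ⟨y, hy⟩ := (UniformSpace.Completion.denseRange_coe (α := f.PreGNS)).exists_dist_lt x hε
    refine ⟨f.ofPreGNS y, ?_⟩
    rw [hΩ, ← dist_eq_norm]
    exact hy.le

end H759R2.Kad
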